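import Pool.Agent.BC.Stmts

/-!
# BC, module RUF: the run
-/

set_option autoImplicit false

open Finset

noncomputable section

namespace Pool.Agent.BC.H23

section

variable {X : Type} [NormedAddCommGroup X] [NormedSpace ℝ X]

lemma stab_mono {x : ℕ → ℤ → X} {t : ℕ} {κ κ' : ℝ} {n : ℕ} {c : Fin t → ℤ} (h : κ ≤ κ')
    (hs : Stab x κ n c) : Stab x κ' n c :=
  fun m a ha => (hs m a ha).trans (by linarith)

lemma stw_mono {x : ℕ → ℤ → X} {κ κ' : ℝ} {n : ℕ} {j : ℤ} (h : κ ≤ κ')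
    (hs : Stw x κ n j) : Stw x κ' n j :=
  fun m => (hs m).trans (by linarith)

lemma lo_mono {x : ℕ → ℤ → X} {t : ℕ} {s : Fin t} {η η' : ℝ} {n : ℕ} {c : Fin t → ℤ} {n' : ℕ}
    {c' : Fin (t + 1) → ℤ} (h : η ≤ η') (hs : Lo x s η n c n' c') : Lo x s η' n c n' c' :=
  fun a ha => (hs a ha).trans (by linarith)

lemma up_mono {x : ℕ → ℤ → X} {t : ℕ} {s : Fin t} {η η' : ℝ} {n : ℕ} {c : Fin t → ℤ} {n' : ℕ}
    {c' : Fin (t + 1) → ℤ} (h : η ≤ η') (hs : Up x s η n c n' c') : Up x s η' n c n' c' :=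
  fun a ha => (hs a ha).trans (by linarith)

lemma av_sum {ι : Type} (S : Finset ι) {t : ℕ} (m : ℕ) (G : ι → (Fin t → ℤ) → ℝ)
    (c : Fin t → ℤ) :
    av m (fun d => ∑ i ∈ S, G i d) c = ∑ i ∈ S, av m (G i) c := by
  unfold av
  simp only [smul_eq_mul]
  rw [← Finset.mul_sum, Finset.sum_comm]

lemma av_mul {t : ℕ} (m : ℕ) (b : ℝ) (G : (Fin t → ℤ) → ℝ) (c : Fin t → ℤ) :
    av m (fun d => b * G d) c = b * av m G c := by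
  unfold av
  simp only [smul_eq_mul]
  rw [← Finset.mul_sum]
  ring

lemma qq_nonneg (pot : PotStmt) {x : ℕ → ℤ → X} (hx : IsT x) {τ : ℕ} (θ : Fin (τ + 1) → ℝ)
    (r : X) (n : ℕ) (c : Fin (τ + 1) → ℤ) : 0 ≤ QP x θ r n c :=
  (norm_nonneg _).trans (pot X x hx (τ + 1) 0 θ r n c).1

lemma ph_nonneg (pot : PotStmt) {x : ℕ → ℤ → X} (hx : IsT x) (K τ : ℕ) (ref : ℕ → ℕ → X) (n : ℕ)
    (c : Fin (τ + 1) → ℤ) : 0 ≤ Ph x K τ ref n c := by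
  unfold Ph
  refine Finset.sum_nonneg fun k₀ _ => Finset.sum_nonneg fun j₀ _ => mul_nonneg (by positivity) ?_
  exact qq_nonneg pot hx _ _ _ _

lemma ph_step (pot : PotStmt) (wgt : WgtStmt) {x : ℕ → ℤ → X} (hx : IsT x) (τ : ℕ)
    (ref : ℕ → ℕ → X) (n : ℕ) (c : Fin (τ + 1) → ℤ) (m : ℕ) :
    av m (Ph x (Nat.log 2 (τ + 1)) (τ + 1) ref (n + m)) (c ∘ pr (sF τ)) ≤
      Ph x (Nat.log 2 (τ + 1)) τ ref n c := by
  have e : Ph x (Nat.log 2 (τ + 1)) (τ + 1) ref (n + m) = fun d =>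
      ∑ k₀ ∈ range (Nat.log 2 (τ + 1) + 1), ∑ j₀ ∈ range (2 ^ k₀), ((1 : ℝ) / 4) ^ k₀ *
        QP x (fun i => wg (τ + 1 + 1) k₀ j₀ i) (ref k₀ j₀) (n + m) d := rfl
  rw [e, av_sum]
  unfold Ph
  refine Finset.sum_le_sum fun k₀ hk => ?_
  rw [av_sum]
  refine Finset.sum_le_sum fun j₀ _ => ?_
  rw [av_mul]
  refine mul_le_mul_of_nonneg_left ?_ (by positivity)
  have hk' : k₀ ≤ Nat.log 2 (τ + 1) := by
    have := Finset.mem_range.1 hk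
    omega
  rw [wgt.2.2 τ k₀ j₀ hk']
  exact (pot X x hx (τ + 1) (sF τ) _ (ref k₀ j₀) n c).2 m

lemma ph_term (pot : PotStmt) {x : ℕ → ℤ → X} (hx : IsT x) (K τ : ℕ) (ref : ℕ → ℕ → X) (n : ℕ)
    (c : Fin (τ + 1) → ℤ) (k₀ j₀ : ℕ) (hk : k₀ ≤ K) (hj : j₀ < 2 ^ k₀) :
    ‖J x n c (fun i => wg (τ + 1) k₀ j₀ i) - ref k₀ j₀‖ ≤ 4 ^ k₀ * Ph x K τ ref n c := by
  have h1 := (pot X x hx (τ + 1) 0 (fun i => wg (τ + 1) k₀ j₀ i) (ref k₀ j₀) n c).1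
  have h2 : ((1 : ℝ) / 4) ^ k₀ * QP x (fun i : Fin (τ + 1) => wg (τ + 1) k₀ j₀ i) (ref k₀ j₀) n c ≤
      Ph x K τ ref n c := by
    unfold Ph
    refine le_trans ?_ (Finset.single_le_sum (f := fun k₀ => ∑ j₀ ∈ range (2 ^ k₀),
      ((1 : ℝ) / 4) ^ k₀ * QP x (fun i : Fin (τ + 1) => wg (τ + 1) k₀ j₀ i) (ref k₀ j₀) n c)
      (fun i _ => Finset.sum_nonneg fun j _ => mul_nonneg (by positivity)
        (qq_nonneg pot hx _ _ _ _)) (Finset.mem_range.2 (Nat.lt_succ_of_le hk)))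
    exact Finset.single_le_sum (f := fun j₀ => ((1 : ℝ) / 4) ^ k₀ *
      QP x (fun i : Fin (τ + 1) => wg (τ + 1) k₀ j₀ i) (ref k₀ j₀) n c)
      (fun j _ => mul_nonneg (by positivity) (qq_nonneg pot hx _ _ _ _)) (Finset.mem_range.2 hj)
  have h3 : (4 : ℝ) ^ k₀ * (((1 : ℝ) / 4) ^ k₀ *
      QP x (fun i : Fin (τ + 1) => wg (τ + 1) k₀ j₀ i) (ref k₀ j₀) n c) =
      QP x (fun i : Fin (τ + 1) => wg (τ + 1) k₀ j₀ i) (ref k₀ j₀) n c := by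
    rw [← mul_assoc, ← mul_pow]
    norm_num
  calc _ ≤ QP x (fun i : Fin (τ + 1) => wg (τ + 1) k₀ j₀ i) (ref k₀ j₀) n c := h1
    _ = (4 : ℝ) ^ k₀ * (((1 : ℝ) / 4) ^ k₀ *
      QP x (fun i : Fin (τ + 1) => wg (τ + 1) k₀ j₀ i) (ref k₀ j₀) n c) := h3.symm
    _ ≤ _ := mul_le_mul_of_nonneg_left h2 (by positivity)

/-- the invariant of the run -/
structure Inv (x : ℕ → ℤ → X) (κ η : ℕ → ℝ) (h M ρ : ℝ) (τ : ℕ) (n : ℕ) (c : Fin (τ + 1) → ℤ)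
    (ref : ℕ → ℕ → X) : Prop where
  st : Stab x (κ τ) n c
  sw : ∀ i, Stw x (κ τ) n (c i)
  os : ∀ i, h - ∑ j ∈ range τ, η j ≤ hh x n (c i)
  ph : Ph x (Nat.log 2 (τ + 1)) τ ref n c ≤
    (∏ j ∈ Ico (2 ^ Nat.log 2 (τ + 1) - 1) τ, (1 + η j)) * (M * ρ ^ Nat.log 2 (τ + 1))

/-- one step of the run -/
structure Rel (x : ℕ → ℤ → X) (η : ℕ → ℝ) (M ρ : ℝ) (τ : ℕ) (n : ℕ) (c : Fin (τ + 1) → ℤ)
    (ref : ℕ → ℕ → X) (n' : ℕ) (c' : Fin (τ + 1 + 1) → ℤ) (ref' : ℕ → ℕ → X) : Prop where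
  lo : Lo x (sF τ) (η τ) n c n' c'
  up : Up x (sF τ) (η τ) n c n' c'
  rf : Nat.log 2 (τ + 2) = Nat.log 2 (τ + 1) → ref' = ref
  rn : Nat.log 2 (τ + 2) = Nat.log 2 (τ + 1) + 1 →
    ref' = fun k₀ j₀ => J x n' c' (fun i => wg (τ + 1 + 1) k₀ j₀ i)
  mv : ∀ k₀ j₀, k₀ ≤ Nat.log 2 (τ + 1) → j₀ < 2 ^ k₀ →
    ‖J x n' c' (fun i => wg (τ + 1 + 1) k₀ j₀ i) - ref k₀ j₀‖ ≤
      4 ^ k₀ * (2 * (M * ρ ^ Nat.log 2 (τ + 1)))

lemma log_cases (τ : ℕ) : (Nat.log 2 (τ + 2) = Nat.log 2 (τ + 1)) ∨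
    (Nat.log 2 (τ + 2) = Nat.log 2 (τ + 1) + 1 ∧ τ + 2 = 2 ^ (Nat.log 2 (τ + 1) + 1)) := by
  have h1 : 2 ^ Nat.log 2 (τ + 1) ≤ τ + 1 := Nat.pow_log_le_self 2 (by omega)
  have h2 : τ + 1 < 2 ^ (Nat.log 2 (τ + 1) + 1) := Nat.lt_pow_succ_log_self (by norm_num) _
  rcases Nat.lt_or_ge (τ + 2) (2 ^ (Nat.log 2 (τ + 1) + 1)) with h3 | h3
  · left
    exact Nat.log_eq_of_pow_le_of_lt_pow (by omega) h3
  · right
    have h4 : τ + 2 = 2 ^ (Nat.log 2 (τ + 1) + 1) := by omega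
    refine ⟨?_, h4⟩
    have h5 := Nat.log_pow (b := 2) (by norm_num) (Nat.log 2 (τ + 1) + 1)
    rw [← h4] at h5
    exact h5

/-- one step -/
lemma step (pot : PotStmt) (wgt : WgtStmt) {x : ℕ → ℤ → X} (hx : IsT x) {κ η : ℕ → ℝ}
    {h M ρ : ℝ} (hη : ∀ τ, 0 < η τ) (hP : ∀ a b : ℕ, ∏ j ∈ Ico a b, (1 + η j) ≤ 2)
    (hM : 0 ≤ M) (hρ : 0 < ρ) (hκ : ∀ τ, 0 < κ τ)
    (hS : ∀ (τ n : ℕ) (c : Fin (τ + 1) → ℤ), Stab x (κ τ) n c → (∀ i, Stw x (κ τ) n (c i)) →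
      ∀ (κ' : ℝ), 0 < κ' → ∀ (Φ : ℕ → (Fin (τ + 1 + 1) → ℤ) → ℝ) (Φ₀ : ℝ), (∀ n d, 0 ≤ Φ n d) →
      (∀ m, av m (Φ (n + m)) (c ∘ pr (sF τ)) ≤ Φ₀) →
      ∃ (m : ℕ) (d : Fin (τ + 1 + 1) → ℤ), Stab x κ' (n + m) d ∧ (∀ i, Stw x κ' (n + m) (d i)) ∧
        (∀ i, hh x n (c (pr (sF τ) i)) - η τ ≤ hh x (n + m) (d i)) ∧
        Lo x (sF τ) (η τ) n c (n + m) d ∧
        Up x (sF τ) (η τ) n c (n + m) d ∧ Φ (n + m) d ≤ (1 + η τ) * Φ₀)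
    (hB : ∀ (K τ : ℕ), τ + 1 = 2 ^ K → ∀ (n : ℕ) (c : Fin (τ + 1) → ℤ),
      Ph x K τ (fun k₀ j₀ => J x n c (fun i => wg (τ + 1) k₀ j₀ i)) n c ≤ M * ρ ^ K)
    (τ n : ℕ) (c : Fin (τ + 1) → ℤ) (ref : ℕ → ℕ → X) (hI : Inv x κ η h M ρ τ n c ref) :
    ∃ (n' : ℕ) (c' : Fin (τ + 1 + 1) → ℤ) (ref' : ℕ → ℕ → X),
      Inv x κ η h M ρ (τ + 1) n' c' ref' ∧ Rel x η M ρ τ n c ref n' c' ref' := by
  obtain ⟨m, d, h1, h2, h3, h4, h5, h6⟩ := hS τ n c hI.st hI.sw (κ (τ + 1)) (hκ _)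
    (Ph x (Nat.log 2 (τ + 1)) (τ + 1) ref) (Ph x (Nat.log 2 (τ + 1)) τ ref n c)
    (fun n d => ph_nonneg pot hx _ _ _ _ _) (ph_step pot wgt hx τ ref n c)
  have hlog : 2 ^ Nat.log 2 (τ + 1) - 1 ≤ τ := by
    have : 2 ^ Nat.log 2 (τ + 1) ≤ τ + 1 := Nat.pow_log_le_self 2 (by omega)
    omega
  have h7 : Ph x (Nat.log 2 (τ + 1)) (τ + 1) ref (n + m) d ≤
      (∏ j ∈ Ico (2 ^ Nat.log 2 (τ + 1) - 1) (τ + 1), (1 + η j)) *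
        (M * ρ ^ Nat.log 2 (τ + 1)) := by
    rw [Finset.prod_Ico_succ_top hlog]
    calc _ ≤ _ := h6
      _ ≤ (1 + η τ) * ((∏ j ∈ Ico (2 ^ Nat.log 2 (τ + 1) - 1) τ, (1 + η j)) *
          (M * ρ ^ Nat.log 2 (τ + 1))) :=
        mul_le_mul_of_nonneg_left hI.ph (by have := hη τ; linarith)
      _ = _ := by ring
  have h8 : Ph x (Nat.log 2 (τ + 1)) (τ + 1) ref (n + m) d ≤
      2 * (M * ρ ^ Nat.log 2 (τ + 1)) :=
    h7.trans (mul_le_mul_of_nonneg_right (hP _ _) (by positivity))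
  have hos : ∀ i, h - ∑ j ∈ range (τ + 1), η j ≤ hh x (n + m) (d i) := by
    intro i
    rw [Finset.sum_range_succ]
    have := h3 i
    have := hI.os (pr (sF τ) i)
    linarith
  have hmv : ∀ k₀ j₀, k₀ ≤ Nat.log 2 (τ + 1) → j₀ < 2 ^ k₀ →
      ‖J x (n + m) d (fun i => wg (τ + 1 + 1) k₀ j₀ i) - ref k₀ j₀‖ ≤
      4 ^ k₀ * (2 * (M * ρ ^ Nat.log 2 (τ + 1))) := fun k₀ j₀ hk hj =>
    (ph_term pot hx _ _ ref (n + m) d k₀ j₀ hk hj).trans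
      (mul_le_mul_of_nonneg_left h8 (by positivity))
  rcases log_cases τ with hc | ⟨hc, hc'⟩
  · refine ⟨n + m, d, ref, ⟨h1, h2, hos, ?_⟩, ⟨h4, h5, fun _ => rfl, fun h => ?_, hmv⟩⟩
    · have : Nat.log 2 (τ + 1 + 1) = Nat.log 2 (τ + 1) := hc
      rw [this]
      exact h7
    · omega
  · refine ⟨n + m, d, fun k₀ j₀ => J x (n + m) d (fun i => wg (τ + 1 + 1) k₀ j₀ i),
      ⟨h1, h2, hos, ?_⟩, ⟨h4, h5, fun h => ?_, fun _ => rfl, hmv⟩⟩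
    · have e : Nat.log 2 (τ + 1 + 1) = Nat.log 2 (τ + 1) + 1 := hc
      rw [e]
      have h9 := hB (Nat.log 2 (τ + 1) + 1) (τ + 1) hc' (n + m) d
      have e2 : Ico (2 ^ (Nat.log 2 (τ + 1) + 1) - 1) (τ + 1) = ∅ := by
        rw [← hc']
        exact Finset.Ico_eq_empty (by omega)
      rw [e2, Finset.prod_empty, one_mul]
      exact h9
    · omega

lemma sum_geo (τ : ℕ) : ∑ j ∈ range τ, ((1 : ℝ) / 2) ^ (j + 1) = 1 - (1 / 2) ^ τ := by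
  induction τ with
  | zero => simp
  | succ τ ih => rw [Finset.sum_range_succ, ih]; ring

lemma prod_le_two (η : ℕ → ℝ) (h0 : ∀ τ, 0 < η τ) (h1 : ∀ τ, η τ ≤ 1 / 2 * (1 / 2) ^ (τ + 1))
    (a b : ℕ) : ∏ j ∈ Ico a b, (1 + η j) ≤ 2 := by
  have h2 : ∑ j ∈ Ico a b, η j ≤ 1 / 2 := by
    calc ∑ j ∈ Ico a b, η j ≤ ∑ j ∈ range b, η j :=
          Finset.sum_le_sum_of_subset_of_nonneg
            (fun j hj => Finset.mem_range.2 (Finset.mem_Ico.1 hj).2) (fun j _ _ => (h0 j).le)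
      _ ≤ ∑ j ∈ range b, 1 / 2 * ((1 : ℝ) / 2) ^ (j + 1) := Finset.sum_le_sum fun j _ => h1 j
      _ = 1 / 2 * (1 - (1 / 2) ^ b) := by rw [← Finset.mul_sum, sum_geo]
      _ ≤ 1 / 2 := by
        have : (0 : ℝ) ≤ (1 / 2) ^ b := by positivity
        linarith
  calc ∏ j ∈ Ico a b, (1 + η j) ≤ ∏ j ∈ Ico a b, Real.exp (η j) :=
        Finset.prod_le_prod (fun j _ => by have := h0 j; linarith)
          (fun j _ => by have := Real.add_one_le_exp (η j); linarith)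
    _ = Real.exp (∑ j ∈ Ico a b, η j) := (Real.exp_sum _ _).symm
    _ ≤ Real.exp (1 / 2) := Real.exp_le_exp.2 h2
    _ ≤ 2 := by
      have h3 := Real.add_one_le_exp (-(1 / 2) : ℝ)
      have h4 : Real.exp (1 / 2) * Real.exp (-(1 / 2)) = 1 := by
        rw [← Real.exp_add]
        norm_num
      nlinarith [Real.exp_pos (1 / 2 : ℝ), Real.exp_pos (-(1 / 2) : ℝ)]

end

/-- the run -/
theorem ruf (stp : StpStmt) (pot : PotStmt) (wgt : WgtStmt) (phb : PhbStmt) : RufStmt := by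
  intro X _ _ x hx M₀ γ hM₀ hγ hγ1 hT h hh0 hstart η₀ kk hη₀ hkk
  obtain ⟨M, ρ, hM, hρ, hρ1, hB⟩ := phb M₀ γ hM₀ hγ hγ1
  have hB' := hB X x hx hT
  set η : ℕ → ℝ := fun τ => min (η₀ τ) (min (h / 2) (1 / 2) * (1 / 2) ^ (τ + 1)) with hηd
  have hη : ∀ τ, 0 < η τ := fun τ => lt_min (hη₀ τ) (by positivity)
  have hη1 : ∀ τ, η τ ≤ η₀ τ := fun τ => min_le_left _ _
  have hη2 : ∀ τ, η τ ≤ 1 / 2 * (1 / 2) ^ (τ + 1) := fun τ =>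
    (min_le_right _ _).trans (mul_le_mul_of_nonneg_right (min_le_right _ _) (by positivity))
  have hη3 : ∀ τ, η τ ≤ h / 2 * (1 / 2) ^ (τ + 1) := fun τ =>
    (min_le_right _ _).trans (mul_le_mul_of_nonneg_right (min_le_left _ _) (by positivity))
  have hη4 : ∀ τ, ∑ j ∈ range τ, η j ≤ h / 2 := by
    intro τ
    calc ∑ j ∈ range τ, η j ≤ ∑ j ∈ range τ, h / 2 * ((1 : ℝ) / 2) ^ (j + 1) :=
          Finset.sum_le_sum fun j _ => hη3 j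
      _ = h / 2 * (1 - (1 / 2) ^ τ) := by rw [← Finset.mul_sum, sum_geo]
      _ ≤ h / 2 := by
        have : (0 : ℝ) ≤ (1 / 2) ^ τ := by positivity
        nlinarith
  have hS0 := fun τ => stp X (τ + 1) (sF τ) (η τ) (hη τ)
  choose κ₀ hκ₀ hS using hS0
  set κ : ℕ → ℝ := fun τ => min (kk τ) (κ₀ τ) with hκd
  have hκ : ∀ τ, 0 < κ τ := fun τ => lt_min (hkk τ) (hκ₀ τ)
  have hκ1 : ∀ τ, κ τ ≤ kk τ := fun τ => min_le_left _ _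
  have hκ2 : ∀ τ, κ τ ≤ κ₀ τ := fun τ => min_le_right _ _
  have hP := prod_le_two η hη hη2
  have hstep := step (h := h) pot wgt hx hη hP hM hρ hκ
    (fun τ n c h1 h2 => hS τ x n c hx (stab_mono (hκ2 τ) h1) (fun i => stw_mono (hκ2 τ) (h2 i)))
    hB'
  -- the states
  let St : ℕ → Type := fun τ => {q : ℕ × (Fin (τ + 1) → ℤ) × (ℕ → ℕ → X) //
    Inv x κ η h M ρ τ q.1 q.2.1 q.2.2}
  have hst : ∀ (τ : ℕ) (q : St τ), ∃ q' : St (τ + 1),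
      Rel x η M ρ τ q.1.1 q.1.2.1 q.1.2.2 q'.1.1 q'.1.2.1 q'.1.2.2 := by
    intro τ q
    obtain ⟨n', c', ref', h1, h2⟩ := hstep τ q.1.1 q.1.2.1 q.1.2.2 q.2
    exact ⟨⟨(n', c', ref'), h1⟩, h2⟩
  choose nx hnx using hst
  obtain ⟨n₀, c₀, hs1, hs2, hs3⟩ := hstart (κ 0) (hκ 0)
  have hI0 : Inv x κ η h M ρ 0 n₀ c₀ (fun k₀ j₀ => J x n₀ c₀ (fun i => wg (0 + 1) k₀ j₀ i)) := by
    refine ⟨hs1, hs2, fun i => by simpa using hs3 i, ?_⟩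
    have e : Nat.log 2 (0 + 1) = 0 := by simp
    rw [e]
    have := hB' 0 0 (by norm_num) n₀ c₀
    simpa using this
  let f : (τ : ℕ) → St τ := fun τ => Nat.rec (motive := St)
    ⟨(n₀, c₀, fun k₀ j₀ => J x n₀ c₀ (fun i => wg (0 + 1) k₀ j₀ i)), hI0⟩ (fun τ q => nx τ q) τ
  have hf : ∀ τ, Rel x η M ρ τ (f τ).1.1 (f τ).1.2.1 (f τ).1.2.2 (f (τ + 1)).1.1
      (f (τ + 1)).1.2.1 (f (τ + 1)).1.2.2 := fun τ => hnx τ (f τ)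
  -- the weighted sums
  let W : ℕ → ℕ → ℕ → X := fun T k₀ j₀ => J x (f T).1.1 (f T).1.2.1 (fun i => wg (T + 1) k₀ j₀ i)
  have href : ∀ τ, (f τ).1.2.2 = W (2 ^ Nat.log 2 (τ + 1) - 1) := by
    intro τ
    induction τ with
    | zero =>
      have e : 2 ^ Nat.log 2 (0 + 1) - 1 = 0 := by simp
      rw [e]
      rfl
    | succ τ ih =>
      rcases log_cases τ with hc | ⟨hc, hc'⟩
      · rw [(hf τ).rf hc, ih]
        have e : Nat.log 2 (τ + 1 + 1) = Nat.log 2 (τ + 1) := hc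
        rw [e]
      · rw [(hf τ).rn hc]
        have e : 2 ^ Nat.log 2 (τ + 1 + 1) - 1 = τ + 1 := by
          have e' : Nat.log 2 (τ + 1 + 1) = Nat.log 2 (τ + 1) + 1 := hc
          rw [e', ← hc']
          rfl
        rw [e]
  have hW : ∀ k k₀ j₀ : ℕ, J x (f (2 ^ k - 1)).1.1 (f (2 ^ k - 1)).1.2.1
      (fun i => wt k k₀ j₀ i) = W (2 ^ k - 1) k₀ j₀ := by
    intro k k₀ j₀
    refine congrArg (J x (f (2 ^ k - 1)).1.1 (f (2 ^ k - 1)).1.2.1) (funext fun i => ?_)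
    have h1 : 0 < 2 ^ k := by positivity
    have h2 : 2 ^ k - 1 + 1 = 2 ^ k := by omega
    have h3 : (i : ℕ) < 2 ^ k := by
      have := i.2
      omega
    have h4 : ∀ T a : ℕ, T = 2 ^ k → a < 2 ^ k → wt k k₀ j₀ a = wg T k₀ j₀ a := by
      intro T a hT ha
      rw [hT]
      exact (wgt.1 k k₀ j₀ a ha).symm
    exact h4 _ _ h2 h3
  have hmain : ∀ k k₀ j₀ : ℕ, k₀ ≤ k → j₀ < 2 ^ k₀ →
      ‖W (2 ^ (k + 1) - 1) k₀ j₀ - W (2 ^ k - 1) k₀ j₀‖ ≤ 2 * M * 4 ^ k₀ * ρ ^ k := by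
    intro k k₀ j₀ hk hj
    have h1 : 1 ≤ 2 ^ k := Nat.one_le_two_pow
    obtain ⟨τ, hτ⟩ : ∃ τ, 2 ^ (k + 1) - 1 = τ + 1 := ⟨2 ^ (k + 1) - 2, by
      have : 2 ^ (k + 1) = 2 * 2 ^ k := by ring
      omega⟩
    have h2 : Nat.log 2 (τ + 1) = k := by
      refine Nat.log_eq_of_pow_le_of_lt_pow ?_ ?_
      · have : 2 ^ (k + 1) = 2 * 2 ^ k := by ring
        omega
      · omega
    have h3 := (hf τ).mv k₀ j₀ (by rw [h2]; exact hk) hj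
    rw [href τ, h2] at h3
    rw [hτ]
    calc _ ≤ _ := h3
      _ = _ := by ring
  refine ⟨2 * M, ρ, fun τ => (f τ).1.1, fun τ => (f τ).1.2.1, hρ, hρ1,
    fun τ => stab_mono (hκ1 τ) (f τ).2.st, fun τ i => ?_, fun τ => lo_mono (hη1 τ) (hf τ).lo,
    fun τ => up_mono (hη1 τ) (hf τ).up, fun k k₀ j₀ hk hj => ?_⟩
  · have h1 := (f τ).2.os i
    have h2 := hη4 τ
    linarith
  · have h1 := hmain k k₀ j₀ hk hj
    rw [← hW, ← hW] at h1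
    exact h1

end Pool.Agent.BC.H23
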